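import Pool.Agent.Helper82.CN.St

/-!
# Project CN: module LOW (lower bound for `f`)
-/

set_option autoImplicit false

namespace Pool.Agent.Helper47.CN

open Finset Pool.Agent.Helper82.CN Filter Topology

lemma bb_pos_LOW {p : ℝ} (h0 : 0 < p) (h1 : p < 1) : 0 < bb p := by
  unfold bb
  apply Real.log_pos
  rw [lt_div_iff₀ (by linarith)]
  linarith

lemma log_tt_LOW : Tendsto (fun n : ℕ => Real.log (n : ℝ)) atTop atTop :=
  Real.tendsto_log_atTop.comp tendsto_natCast_atTop_atTop

lemma ratio_LOW {p : ℝ} (h0 : 0 < p) (h1 : p < 1) (e : ℝ) :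
    Tendsto (fun n : ℕ => (ga p n + e) / Real.log n) atTop (𝓝 (2 / bb p)) := by
  have hb := bb_pos_LOW h0 h1
  have hl := log_tt_LOW
  have h2 : Tendsto (fun x : ℝ => Real.log x / x) atTop (𝓝 0) :=
    Real.isLittleO_log_id_atTop.tendsto_div_nhds_zero
  have h3 : Tendsto (fun n : ℕ => Real.log n / bb p) atTop atTop :=
    hl.atTop_div_const hb
  have h4 := h2.comp h3
  have h5 : Tendsto (fun n : ℕ => (1 : ℝ) / Real.log n) atTop (𝓝 0) := by
    refine hl.inv_tendsto_atTop.congr fun n => ?_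
    rw [Pi.inv_apply, one_div]
  have h6 : Tendsto (fun n : ℕ => 2 / bb p - 2 / bb p / bb p *
      (Real.log (Real.log n / bb p) / (Real.log n / bb p)) +
      (2 * (1 - Real.log 2) / bb p - 2 / bb p + e) * (1 / Real.log n)) atTop
      (𝓝 (2 / bb p - 2 / bb p / bb p * 0 + (2 * (1 - Real.log 2) / bb p - 2 / bb p + e) * 0)) :=
    (tendsto_const_nhds.sub (tendsto_const_nhds.mul h4)).add (tendsto_const_nhds.mul h5)
  rw [mul_zero, mul_zero, sub_zero, add_zero] at h6
  refine h6.congr' ?_
  filter_upwards [hl.eventually_gt_atTop 0] with n hn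
  unfold ga al
  field_simp
  ring

lemma log_le_LOW {y : ℝ} (hy : 1 ≤ y) : (Real.log y + 1) / y ≤ 3 / √y := by
  have hy0 : 0 < y := by linarith
  have hs : 0 < √y := Real.sqrt_pos.2 hy0
  have h1 : Real.log y = 2 * Real.log (√y) := by
    rw [Real.log_sqrt hy0.le]; ring
  have h2 : Real.log (√y) ≤ √y - 1 := Real.log_le_sub_one_of_pos hs
  have h3 : 1 ≤ √y := by rw [Real.one_le_sqrt]; exact hy
  rw [div_le_div_iff₀ hy0 hs]
  have h4 : √y * √y = y := Real.mul_self_sqrt hy0.le
  nlinarith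

/-- all the asymptotic facts -/
lemma facts_LOW {p ε : ℝ} (h0 : 0 < p) (h1 : p < 1) (he : 0 < ε) :
    ∀ᶠ n : ℕ in atTop, 1 ≤ ga p n + ε / 2 ∧ 0 < Real.log (n : ℝ) ∧
      Real.log (2 * Real.log n / (bb p * (ga p n + ε / 2))) + bb p / 2 -
        Real.log n / (ga p n + ε / 2 + 1) + 3 / √(ga p n + ε / 2) ≤ bb p * ε / 8 ∧
      (ga p n + ε / 2) * (ga p n + ε / 2 + 1) ≤ n ∧
      Real.exp (-(n * (bb p * ε / 8))) * (ga p n + ε) ≤ ε / 2 := by
  have hb := bb_pos_LOW h0 h1
  have hl := log_tt_LOW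
  have hr := ratio_LOW h0 h1 (ε / 2)
  have hc : (0 : ℝ) < 2 / bb p := by positivity
  have hY : Tendsto (fun n : ℕ => ga p n + ε / 2) atTop atTop := by
    have := hr.pos_mul_atTop hc hl
    refine this.congr' ?_
    filter_upwards [hl.eventually_gt_atTop 0] with n hn
    field_simp
  have hi : Tendsto (fun n : ℕ => (1 : ℝ) / Real.log n) atTop (𝓝 0) := by
    refine hl.inv_tendsto_atTop.congr fun n => ?_
    rw [Pi.inv_apply, one_div]
  -- F4
  have h4 : Tendsto (fun n : ℕ => Real.log (2 * Real.log n / (bb p * (ga p n + ε / 2)))) atTop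
      (𝓝 0) := by
    have ha : Tendsto (fun n : ℕ => (2 / bb p) / ((ga p n + ε / 2) / Real.log n)) atTop
        (𝓝 ((2 / bb p) / (2 / bb p))) := tendsto_const_nhds.div hr hc.ne'
    rw [div_self hc.ne'] at ha
    have hb2 := (Real.continuousAt_log one_ne_zero).tendsto.comp ha
    rw [Real.log_one] at hb2
    refine hb2.congr' ?_
    filter_upwards [hl.eventually_gt_atTop 0, hY.eventually_gt_atTop 0] with n hn hn2
    simp only [Function.comp]
    congr 1
    field_simp
  -- F5
  have h5 : Tendsto (fun n : ℕ => Real.log n / (ga p n + ε / 2 + 1)) atTop (𝓝 (bb p / 2)) := by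
    have ha : Tendsto (fun n : ℕ => 1 / ((ga p n + ε / 2) / Real.log n + 1 / Real.log n)) atTop
        (𝓝 (1 / (2 / bb p + 0))) := tendsto_const_nhds.div (hr.add hi) (by positivity)
    have e1 : 1 / (2 / bb p + 0) = bb p / 2 := by field_simp; ring
    rw [e1] at ha
    refine ha.congr' ?_
    filter_upwards [hl.eventually_gt_atTop 0, hY.eventually_gt_atTop 0] with n hn hn2
    field_simp
  -- F6
  have h6 : Tendsto (fun n : ℕ => 3 / √(ga p n + ε / 2)) atTop (𝓝 0) := by
    have := (Real.tendsto_sqrt_atTop.comp hY).inv_tendsto_atTop.const_mul 3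
    rw [mul_zero] at this
    refine this.congr fun n => ?_
    simp only [Function.comp, Pi.inv_apply]
    exact (div_eq_mul_inv _ _).symm
  -- F7
  have h7 : Tendsto (fun n : ℕ => (ga p n + ε / 2) * (ga p n + ε / 2 + 1) / n) atTop (𝓝 0) := by
    have ha : Tendsto (fun x : ℝ => Real.log x ^ 2 / x) atTop (𝓝 0) :=
      (Real.isLittleO_pow_log_id_atTop (n := 2)).tendsto_div_nhds_zero
    have hb3 := ha.comp (tendsto_natCast_atTop_atTop (R := ℝ))
    have := (hr.mul (hr.add hi)).mul hb3
    rw [mul_zero] at this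
    refine this.congr' ?_
    filter_upwards [hl.eventually_gt_atTop 0, eventually_gt_atTop 0] with n hn hn2
    simp only [Function.comp]
    have : (0 : ℝ) < n := by exact_mod_cast hn2
    field_simp
  -- F8
  have h8 : Tendsto (fun n : ℕ => Real.exp (-(n * (bb p * ε / 8))) * (ga p n + ε)) atTop
      (𝓝 0) := by
    have hr2 := ratio_LOW h0 h1 ε
    have ha : Tendsto (fun x : ℝ => Real.log x / x) atTop (𝓝 0) :=
      Real.isLittleO_log_id_atTop.tendsto_div_nhds_zero
    have hb3 := ha.comp (tendsto_natCast_atTop_atTop (R := ℝ))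
    have hcc : (0 : ℝ) < bb p * ε / 8 := by positivity
    have hd : Tendsto (fun n : ℕ => (n : ℝ) * (bb p * ε / 8)) atTop atTop :=
      tendsto_natCast_atTop_atTop.atTop_mul_const hcc
    have h9 : Tendsto (fun x : ℝ => x ^ 1 * Real.exp (-x)) atTop (𝓝 0) :=
      Real.tendsto_pow_mul_exp_neg_atTop_nhds_zero 1
    have h10 := (h9.comp hd).mul ((hr2.mul hb3).mul_const (1 / (bb p * ε / 8)))
    simp only [mul_zero, zero_mul] at h10
    refine h10.congr' ?_
    filter_upwards [hl.eventually_gt_atTop 0, eventually_gt_atTop 0] with n hn hn2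
    simp only [Function.comp]
    have : (0 : ℝ) < n := by exact_mod_cast hn2
    field_simp
  have h9 : Tendsto (fun n : ℕ => Real.log (2 * Real.log n / (bb p * (ga p n + ε / 2))) +
      bb p / 2 - Real.log n / (ga p n + ε / 2 + 1) + 3 / √(ga p n + ε / 2)) atTop (𝓝 0) := by
    have := ((h4.add_const (bb p / 2)).sub h5).add h6
    simpa using this
  have hcc : (0 : ℝ) < bb p * ε / 8 := by positivity
  filter_upwards [hY.eventually_ge_atTop 1, hl.eventually_gt_atTop 0,
    h9.eventually_le_const hcc, h7.eventually_le_const one_pos,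
    h8.eventually_le_const (show (0 : ℝ) < ε / 2 by positivity), eventually_gt_atTop 0]
    with n a1 a2 a3 a4 a5 a6
  refine ⟨a1, a2, a3, ?_, a5⟩
  have : (0 : ℝ) < n := by exact_mod_cast a6
  rw [div_le_one this] at a4
  exact a4

theorem tLOW : StFmb → StLow := by
  intro hF p ε h0 h1 he
  obtain ⟨n0, hn0⟩ := eventually_atTop.1 (facts_LOW h0 h1 he)
  refine ⟨n0, fun n hn => ?_⟩
  obtain ⟨a1, a2, a3, a4, a5⟩ := hn0 n hn
  have hb := bb_pos_LOW h0 h1
  set Y := ga p n + ε / 2 with hYd
  set L := Real.log (n : ℝ) with hL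
  have hYe : ga p n + ε = Y + ε / 2 := by rw [hYd]; ring
  rw [hYe] at a5 ⊢
  have hY0 : 0 < Y := by linarith
  have hn1 : (1 : ℝ) ≤ n := by nlinarith
  have hnpos : (0 : ℝ) < n := by linarith
  have hYn : Y ≤ n := by nlinarith
  set k := ⌊(n : ℝ) / Y⌋₊ with hk
  have hk1 : (k : ℝ) ≤ n / Y := Nat.floor_le (by positivity)
  have hk2 : (n : ℝ) / Y < k + 1 := Nat.lt_floor_add_one _
  have hk3 : 1 ≤ k := by
    rw [hk]; apply Nat.le_floor; rw [Nat.cast_one, le_div_iff₀ hY0]; linarith
  have hk3' : (1 : ℝ) ≤ k := by exact_mod_cast hk3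
  have hk0 : (0 : ℝ) < k := by linarith
  have hkY : (k : ℝ) * Y ≤ n := by rwa [le_div_iff₀ hY0] at hk1
  have hk4 : (k : ℝ) ≤ n := by nlinarith
  have hk5 : k ≤ n := by exact_mod_cast hk4
  -- y
  set y := (n : ℝ) / k with hy
  have hyY : Y ≤ y := by rw [hy, le_div_iff₀ hk0]; linarith
  have hy0 : 0 < y := by linarith
  have hyk : y * k = n := by rw [hy]; field_simp
  have hyY1 : y ≤ Y + 1 := by
    rw [hy, div_le_iff₀ hk0]
    have h2 : (n : ℝ) < (k + 1) * Y := by rwa [div_lt_iff₀ hY0] at hk2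
    -- n < kY + Y, want n ≤ kY + k
    by_contra hcon
    push Not at hcon
    have h3 : (k : ℝ) < Y := by nlinarith
    nlinarith
  have hlk : Real.log (k : ℝ) = L - Real.log y := by
    rw [hy, Real.log_div hnpos.ne' hk0.ne']; ring
  have hga : bb p / 2 * Y = L - Real.log (L / bb p) - Real.log 2 + bb p * ε / 4 := by
    rw [hYd]; unfold ga al
    rw [← hL]
    field_simp
    ring
  have hlog : Real.log (2 * L / (bb p * Y)) = Real.log 2 + Real.log (L / bb p) - Real.log Y := by
    have : 2 * L / (bb p * Y) = 2 * (L / bb p) / Y := by field_simp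
    rw [this, Real.log_div (by positivity) hY0.ne', Real.log_mul (by norm_num) (by positivity)]
  have hbr : (1 - 1 / y) * Real.log k + 1 / y - bb p / 2 * (y - 1) ≤ -(bb p * ε / 8) := by
    have e1 : (1 - 1 / y) * Real.log k + 1 / y =
        L - Real.log y - L / y + (Real.log y + 1) / y := by
      rw [hlk]; field_simp; ring
    have e2 : Real.log Y ≤ Real.log y := Real.log_le_log hY0 hyY
    have e3 : L / (Y + 1) ≤ L / y := div_le_div_of_nonneg_left a2.le hy0 hyY1
    have e4 : (Real.log y + 1) / y ≤ 3 / √Y := by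
      refine (log_le_LOW (by linarith)).trans ?_
      exact div_le_div_of_nonneg_left (by norm_num) (Real.sqrt_pos.2 hY0)
        (Real.sqrt_le_sqrt hyY)
    have e5 : bb p / 2 * Y ≤ bb p / 2 * y := by
      exact mul_le_mul_of_nonneg_left hyY (by positivity)
    rw [hlog] at a3
    rw [e1]
    linarith
  -- probability
  have hP := hF p n k h0.le h1 hk3 hk5
  set P := EE p (fun ω : Sym2 (Fin n) → Bool => if ch (gr ω) ≤ k then (1 : ℝ) else 0) with hPd
  have hP2 : P ≤ Real.exp (-(n * (bb p * ε / 8))) := by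
    refine hP.trans ?_
    have f1 : (k : ℝ) ^ n / (k.factorial : ℝ) ≤
        Real.exp ((n - k) * Real.log k + k) := by
      have g1 : (k : ℝ) ^ k / (k.factorial : ℝ) ≤ Real.exp k :=
        Real.pow_div_factorial_le_exp _ hk0.le k
      have g2 : (k : ℝ) ^ n = (k : ℝ) ^ (n - k) * (k : ℝ) ^ k := by
        rw [← pow_add]; congr 1; omega
      have g3 : (k : ℝ) ^ (n - k) = Real.exp ((n - k) * Real.log k) := by
        rw [← Real.rpow_natCast, Real.rpow_def_of_pos hk0, Nat.cast_sub hk5, mul_comm]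
      rw [g2, mul_div_assoc, Real.exp_add, g3]
      exact mul_le_mul_of_nonneg_left g1 (Real.exp_pos _).le
    have f2 : (1 - p) ^ (((n : ℝ) ^ 2 / k - n) / 2) =
        Real.exp (-(bb p * (((n : ℝ) ^ 2 / k - n) / 2))) := by
      rw [Real.rpow_def_of_pos (by linarith)]
      congr 1
      unfold bb
      rw [one_div, Real.log_inv]; ring
    rw [f2]
    calc _ ≤ Real.exp ((n - k) * Real.log k + k) *
          Real.exp (-(bb p * (((n : ℝ) ^ 2 / k - n) / 2))) :=
        mul_le_mul_of_nonneg_right f1 (Real.exp_pos _).le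
      _ ≤ _ := by
        rw [← Real.exp_add]
        apply Real.exp_le_exp.2
        have f3 : ((n : ℝ) - k) * Real.log k + k + -(bb p * (((n : ℝ) ^ 2 / k - n) / 2)) =
            n * ((1 - 1 / y) * Real.log k + 1 / y - bb p / 2 * (y - 1)) := by
          have f4 : (n : ℝ) ^ 2 / k = n * y := by rw [hy]; ring
          have f5 : (n : ℝ) * (1 / y) = k := by rw [hy]; field_simp
          rw [f4]
          linear_combination (Real.log k - 1) * f5
        rw [f3]
        have := mul_le_mul_of_nonneg_left hbr hnpos.le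
        linarith
  -- f n
  have hf : ((k : ℝ) + 1) * (1 - P) ≤ fn p n := by
    have g1 : EE p (fun ω : Sym2 (Fin n) → Bool => ((k : ℝ) + 1) *
        (1 - if ch (gr ω) ≤ k then (1 : ℝ) else 0)) = ((k : ℝ) + 1) * (1 - P) := by
      rw [EE_mul_left, EE_sub, EE_const]
    rw [← g1]
    unfold fn
    apply EE_mono h0.le h1.le
    intro ω
    by_cases hc : ch (gr ω) ≤ k
    · rw [if_pos hc]
      have : 0 ≤ ch (gr ω) := by unfold ch; exact Nat.cast_nonneg _
      linarith
    · rw [if_neg hc]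
      have hc' : k < (gr ω).chromaticNumber.toNat := by
        unfold ch at hc
        push Not at hc
        exact_mod_cast hc
      have hc2 : ((k : ℝ) + 1) ≤ ch (gr ω) := by
        unfold ch
        exact_mod_cast hc'
      linarith
  set δ := Real.exp (-(n * (bb p * ε / 8))) with hδ
  have hδ1 : δ * (Y + ε / 2) ≤ ε / 2 := a5
  have hδ2 : δ ≤ 1 := by
    rw [hδ]; apply Real.exp_le_one_iff.2
    have : 0 ≤ (n : ℝ) * (bb p * ε / 8) := by positivity
    linarith
  calc (n : ℝ) / (Y + ε / 2) ≤ n / Y * (1 - δ) := by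
        rw [div_le_iff₀ (by positivity)]
        have : (n : ℝ) / Y * (1 - δ) * (Y + ε / 2) = n / Y * ((1 - δ) * (Y + ε / 2)) := by ring
        rw [this]
        have h3 : Y ≤ (1 - δ) * (Y + ε / 2) := by nlinarith
        calc (n : ℝ) = n / Y * Y := by field_simp
          _ ≤ _ := mul_le_mul_of_nonneg_left h3 (by positivity)
    _ ≤ ((k : ℝ) + 1) * (1 - δ) := mul_le_mul_of_nonneg_right hk2.le (by linarith)
    _ ≤ ((k : ℝ) + 1) * (1 - P) := mul_le_mul_of_nonneg_left (by linarith) (by positivity)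
    _ ≤ fn p n := hf

end Pool.Agent.Helper47.CN
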